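import Pool.Agent.J4.H74.TupNear

set_option autoImplicit false

/-!
Exceptional tuples for the scales of a sparse set (helper74).
-/

namespace Pool.Agent.J4.H74.SH

open Finset Classical
open Pool.Agent.J4.H74.TupNear (Bx)

/-- the tuples below `Y` which are exceptional for some scale of a sparse set -/
theorem sparse_union {k : ℕ} (hk : 1 ≤ k) {A : ℕ} (hA : 1 ≤ A) {δ : ℝ} (hδ : 0 < δ) (hδ1 : δ ≤ 1 / 2) {N₀ : ℕ}
    {P : ℕ → (Fin k → ℕ) → Prop}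
    (h : ∀ N : ℕ, N₀ ≤ N → ∀ z : ℕ, z ≤ A * N → (N : ℝ) ^ (1 - δ) ≤ z →
      (((Bx k z).filter (fun x => ¬ P N x)).card : ℝ) ≤ (z : ℝ) ^ k * (N : ℝ) ^ (-δ))
    {S : Set ℕ} {C : ℝ} (hS : ∀ X : ℕ, 1 ≤ X → (((Icc 1 X).filter (fun N => N ∈ S)).card : ℝ) ≤
      C * (X : ℝ) ^ (δ / 4)) (Y : ℕ) (hY : 1 ≤ Y) :
    (((Bx k Y).filter (fun x => ∃ N : ℕ, N₀ ≤ N ∧ 1 ≤ N ∧ N ∈ S ∧
      (∀ i, x i ≤ A * N ∧ (N : ℝ) ^ (1 - δ) ≤ x i) ∧ ¬ P N x)).card : ℝ) ≤
      C * (A : ℝ) ^ k * (Y : ℝ) ^ (k - δ / 2) := by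
  have hY1 : (1 : ℝ) ≤ Y := by exact_mod_cast hY
  have hY0 : (0 : ℝ) < Y := by linarith
  have hA1 : (1 : ℝ) ≤ A := by exact_mod_cast hA
  have hk1 : (1 : ℝ) ≤ k := by exact_mod_cast hk
  haveI : Nonempty (Fin k) := ⟨⟨0, hk⟩⟩
  -- one scale
  have one : ∀ N : ℕ, 1 ≤ N → (((Bx k Y).filter (fun x => N₀ ≤ N ∧
      (∀ i, x i ≤ A * N ∧ (N : ℝ) ^ (1 - δ) ≤ x i) ∧ ¬ P N x)).card : ℝ) ≤
      (A : ℝ) ^ k * (Y : ℝ) ^ (k - δ) := by
    intro N hN
    have hN1 : (1 : ℝ) ≤ N := by exact_mod_cast hN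
    have hN0 : (0 : ℝ) < N := by linarith
    have hR0 : 0 ≤ (A : ℝ) ^ k * (Y : ℝ) ^ (k - δ) := by positivity
    rcases ((Bx k Y).filter (fun x => N₀ ≤ N ∧
      (∀ i, x i ≤ A * N ∧ (N : ℝ) ^ (1 - δ) ≤ x i) ∧ ¬ P N x)).eq_empty_or_nonempty with he | ⟨x₀, hx₀⟩
    · rw [he, card_empty, Nat.cast_zero]
      exact hR0
    · rw [mem_filter] at hx₀
      obtain ⟨hb, hN₀, hx1, -⟩ := hx₀
      have hb' : ∀ i, 1 ≤ x₀ i ∧ x₀ i ≤ Y := by
        intro i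
        have := Fintype.mem_piFinset.1 hb i
        exact mem_Icc.1 this
      obtain ⟨z, hz⟩ : ∃ z, z = min (A * N) Y := ⟨_, rfl⟩
      have hz1 : (N : ℝ) ^ (1 - δ) ≤ z := by
        obtain ⟨i⟩ := (inferInstance : Nonempty (Fin k))
        refine (hx1 i).2.trans ?_
        have : x₀ i ≤ z := by rw [hz]; exact le_min (hx1 i).1 (hb' i).2
        exact_mod_cast this
      have hzA : z ≤ A * N := by rw [hz]; exact min_le_left _ _
      have hzY : z ≤ Y := by rw [hz]; exact min_le_right _ _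
      have h1 := h N hN₀ z hzA hz1
      have hsub : (Bx k Y).filter (fun x => N₀ ≤ N ∧
          (∀ i, x i ≤ A * N ∧ (N : ℝ) ^ (1 - δ) ≤ x i) ∧ ¬ P N x) ⊆ (Bx k z).filter (fun x => ¬ P N x) := by
        intro x hx
        rw [mem_filter] at hx ⊢
        obtain ⟨h2, -, h3, h4⟩ := hx
        refine ⟨?_, h4⟩
        unfold Bx at h2 ⊢
        rw [Fintype.mem_piFinset] at h2 ⊢
        intro i
        have h5 := mem_Icc.1 (h2 i)
        rw [mem_Icc, hz]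
        exact ⟨h5.1, le_min (h3 i).1 h5.2⟩
      refine (Nat.cast_le.2 (card_le_card hsub)).trans (h1.trans ?_)
      rcases le_total N Y with hNY | hNY
      · have hNY' : (N : ℝ) ≤ Y := by exact_mod_cast hNY
        have hz' : (z : ℝ) ≤ A * N := by exact_mod_cast hzA
        calc (z : ℝ) ^ k * (N : ℝ) ^ (-δ) ≤ ((A : ℝ) * N) ^ k * (N : ℝ) ^ (-δ) := by
              apply mul_le_mul_of_nonneg_right _ (by positivity)
              exact pow_le_pow_left₀ (Nat.cast_nonneg z) hz' k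
          _ = (A : ℝ) ^ k * (N : ℝ) ^ (k - δ) := by
              rw [mul_pow, mul_assoc, ← Real.rpow_natCast (N : ℝ) k, ← Real.rpow_add hN0]
              rw [sub_eq_add_neg]
          _ ≤ (A : ℝ) ^ k * (Y : ℝ) ^ (k - δ) := by
              apply mul_le_mul_of_nonneg_left _ (by positivity)
              exact Real.rpow_le_rpow hN0.le hNY' (by linarith)
      · have hNY' : (Y : ℝ) ≤ N := by exact_mod_cast hNY
        have hz' : (z : ℝ) ≤ Y := by exact_mod_cast hzY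
        calc (z : ℝ) ^ k * (N : ℝ) ^ (-δ) ≤ (Y : ℝ) ^ k * (Y : ℝ) ^ (-δ) := by
              apply mul_le_mul _ _ (by positivity) (by positivity)
              · exact pow_le_pow_left₀ (Nat.cast_nonneg z) hz' k
              · exact Real.rpow_le_rpow_of_nonpos hY0 hNY' (by linarith)
          _ = 1 * (Y : ℝ) ^ (k - δ) := by
              rw [← Real.rpow_natCast (Y : ℝ) k, ← Real.rpow_add hY0, one_mul, sub_eq_add_neg]
          _ ≤ (A : ℝ) ^ k * (Y : ℝ) ^ (k - δ) := by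
              apply mul_le_mul_of_nonneg_right _ (by positivity)
              exact one_le_pow₀ hA1
  -- the union
  have hU : (Bx k Y).filter (fun x => ∃ N : ℕ, N₀ ≤ N ∧ 1 ≤ N ∧ N ∈ S ∧
      (∀ i, x i ≤ A * N ∧ (N : ℝ) ^ (1 - δ) ≤ x i) ∧ ¬ P N x) ⊆
      ((Icc 1 (Y ^ 2)).filter (fun N => N ∈ S)).biUnion (fun N => (Bx k Y).filter (fun x => N₀ ≤ N ∧
        (∀ i, x i ≤ A * N ∧ (N : ℝ) ^ (1 - δ) ≤ x i) ∧ ¬ P N x)) := by
    intro x hx
    rw [mem_filter] at hx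
    obtain ⟨hb, N, h1, h2, h3, h4, h5⟩ := hx
    rw [mem_biUnion]
    refine ⟨N, ?_, ?_⟩
    · rw [mem_filter, mem_Icc]
      refine ⟨⟨h2, ?_⟩, h3⟩
      obtain ⟨i⟩ := (inferInstance : Nonempty (Fin k))
      have h6 : (x i : ℝ) ≤ Y := by
        have := mem_Icc.1 (Fintype.mem_piFinset.1 hb i)
        exact_mod_cast this.2
      have h7 := (h4 i).2.trans h6
      have hN1 : (1 : ℝ) ≤ N := by exact_mod_cast h2
      have h8 : (N : ℝ) ^ ((1 : ℝ) / 2) ≤ Y :=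
        (Real.rpow_le_rpow_of_exponent_le hN1 (by linarith)).trans h7
      have h9 : (N : ℝ) ≤ (Y : ℝ) ^ 2 := by
        have h10 := pow_le_pow_left₀ (by positivity) h8 2
        rwa [← Real.rpow_natCast ((N : ℝ) ^ ((1 : ℝ) / 2)), ← Real.rpow_mul (by linarith),
          show (1 : ℝ) / 2 * ((2 : ℕ) : ℝ) = 1 by norm_num, Real.rpow_one] at h10
      exact_mod_cast h9
    · rw [mem_filter]
      exact ⟨hb, h1, h4, h5⟩
  have hc := hS (Y ^ 2) (Nat.one_le_pow _ _ hY)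
  calc _ ≤ ((((Icc 1 (Y ^ 2)).filter (fun N => N ∈ S)).biUnion (fun N => (Bx k Y).filter (fun x => N₀ ≤ N ∧
        (∀ i, x i ≤ A * N ∧ (N : ℝ) ^ (1 - δ) ≤ x i) ∧ ¬ P N x))).card : ℝ) :=
        Nat.cast_le.2 (card_le_card hU)
    _ ≤ ∑ N ∈ (Icc 1 (Y ^ 2)).filter (fun N => N ∈ S), (((Bx k Y).filter (fun x => N₀ ≤ N ∧
        (∀ i, x i ≤ A * N ∧ (N : ℝ) ^ (1 - δ) ≤ x i) ∧ ¬ P N x)).card : ℝ) := by
        exact_mod_cast card_biUnion_le
    _ ≤ ∑ _N ∈ (Icc 1 (Y ^ 2)).filter (fun N => N ∈ S), (A : ℝ) ^ k * (Y : ℝ) ^ (k - δ) := by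
        apply sum_le_sum
        intro N hN
        exact one N (mem_Icc.1 (mem_filter.1 hN).1).1
    _ = (((Icc 1 (Y ^ 2)).filter (fun N => N ∈ S)).card : ℝ) * ((A : ℝ) ^ k * (Y : ℝ) ^ (k - δ)) := by
        rw [sum_const, nsmul_eq_mul]
    _ ≤ (C * (((Y ^ 2 : ℕ) : ℝ)) ^ (δ / 4)) * ((A : ℝ) ^ k * (Y : ℝ) ^ (k - δ)) :=
        mul_le_mul_of_nonneg_right hc (by positivity)
    _ = C * (A : ℝ) ^ k * (Y : ℝ) ^ (k - δ / 2) := by
        have e1 : (((Y ^ 2 : ℕ) : ℝ)) ^ (δ / 4) = (Y : ℝ) ^ (δ / 2) := by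
          push_cast
          rw [← Real.rpow_natCast, ← Real.rpow_mul hY0.le]
          congr 1
          push_cast
          ring
        have e2 : (Y : ℝ) ^ (k - δ / 2) = (Y : ℝ) ^ (δ / 2) * (Y : ℝ) ^ (k - δ) := by
          rw [← Real.rpow_add hY0]
          congr 1
          ring
        rw [e1, e2]
        ring

/-- the products of two families of numbers in `[0, 1]` -/
lemma prod_close {ι : Type} (s : Finset ι) (f g : ι → ℝ) {η : ℝ} (hf : ∀ i ∈ s, 0 ≤ f i ∧ f i ≤ 1)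
    (hg : ∀ i ∈ s, 0 ≤ g i ∧ g i ≤ 1) (h : ∀ i ∈ s, |f i - g i| ≤ η) :
    |∏ i ∈ s, f i - ∏ i ∈ s, g i| ≤ s.card * η := by
  induction s using Finset.induction_on with
  | empty => simp
  | insert a s ha ih =>
    rw [prod_insert ha, prod_insert ha, card_insert_of_notMem ha]
    have h1 := ih (fun i hi => hf i (mem_insert_of_mem hi)) (fun i hi => hg i (mem_insert_of_mem hi))
      (fun i hi => h i (mem_insert_of_mem hi))
    have h2 := hf a (mem_insert_self a s)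
    have h3 := h a (mem_insert_self a s)
    have h4 : 0 ≤ ∏ i ∈ s, g i := prod_nonneg fun i hi => (hg i (mem_insert_of_mem hi)).1
    have h5 : ∏ i ∈ s, g i ≤ 1 := prod_le_one (fun i hi => (hg i (mem_insert_of_mem hi)).1)
      fun i hi => (hg i (mem_insert_of_mem hi)).2
    have e : f a * ∏ i ∈ s, f i - g a * ∏ i ∈ s, g i =
        f a * (∏ i ∈ s, f i - ∏ i ∈ s, g i) + (f a - g a) * ∏ i ∈ s, g i := by ring
    rw [e]
    calc |f a * (∏ i ∈ s, f i - ∏ i ∈ s, g i) + (f a - g a) * ∏ i ∈ s, g i| ≤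
        |f a * (∏ i ∈ s, f i - ∏ i ∈ s, g i)| + |(f a - g a) * ∏ i ∈ s, g i| := abs_add_le _ _
      _ = f a * |∏ i ∈ s, f i - ∏ i ∈ s, g i| + |f a - g a| * ∏ i ∈ s, g i := by
          rw [abs_mul, abs_mul, abs_of_nonneg h2.1, abs_of_nonneg h4]
      _ ≤ 1 * (s.card * η) + η * 1 := by
          have hη : 0 ≤ η := (abs_nonneg _).trans h3
          apply add_le_add
          · exact mul_le_mul h2.2 h1 (abs_nonneg _) zero_le_one
          · exact mul_le_mul h3 h5 h4 hη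
      _ = ((s.card + 1 : ℕ) : ℝ) * η := by push_cast; ring

/-- the grid of scales -/
def grid (K : ℕ) : Set ℕ := {N | ∃ a j : ℕ, a ≤ 2 * K + 1 ∧ N = a * 2 ^ j}

lemma grid_near {K N : ℕ} (hK : 1 ≤ K) (hN : K ≤ N) :
    ∃ N' ∈ grid K, N ≤ N' ∧ (K : ℝ) * ((N' : ℝ) - N) ≤ N := by
  obtain ⟨j, hj⟩ : ∃ j, j = Nat.log 2 (N / K) := ⟨_, rfl⟩
  have hq : N / K ≠ 0 := by
    have := Nat.div_pos hN hK
    omega
  have h1 : 2 ^ j ≤ N / K := by rw [hj]; exact Nat.pow_log_le_self 2 hq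
  have h2 : N / K < 2 ^ (j + 1) := by rw [hj]; exact Nat.lt_pow_succ_log_self (by norm_num) _
  have h3 : 2 ^ j * K ≤ N := (Nat.le_div_iff_mul_le hK).1 h1
  have h4 : N < 2 ^ (j + 1) * K := (Nat.div_lt_iff_lt_mul hK).1 h2
  have hp : 0 < 2 ^ j := by positivity
  refine ⟨(N / 2 ^ j + 1) * 2 ^ j, ⟨N / 2 ^ j + 1, j, ?_, rfl⟩, ?_, ?_⟩
  · have : N / 2 ^ j < 2 * K := by
      rw [Nat.div_lt_iff_lt_mul hp]
      calc N < 2 ^ (j + 1) * K := h4
        _ = 2 * K * 2 ^ j := by rw [pow_succ]; ring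
    omega
  · have := Nat.div_add_mod N (2 ^ j)
    have h5 := Nat.mod_lt N hp
    nlinarith
  · have h5 : (N / 2 ^ j + 1) * 2 ^ j ≤ N + 2 ^ j := by
      have := Nat.div_mul_le_self N (2 ^ j)
      rw [add_mul, one_mul]
      omega
    have h6 : (((N / 2 ^ j + 1) * 2 ^ j : ℕ) : ℝ) - N ≤ ((2 ^ j : ℕ) : ℝ) := by
      have : (((N / 2 ^ j + 1) * 2 ^ j : ℕ) : ℝ) ≤ ((N + 2 ^ j : ℕ) : ℝ) := by exact_mod_cast h5
      push_cast at this ⊢
      linarith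
    calc (K : ℝ) * ((((N / 2 ^ j + 1) * 2 ^ j : ℕ) : ℝ) - N) ≤ K * ((2 ^ j : ℕ) : ℝ) :=
          mul_le_mul_of_nonneg_left h6 (Nat.cast_nonneg K)
      _ = ((2 ^ j * K : ℕ) : ℝ) := by push_cast; ring
      _ ≤ N := by exact_mod_cast h3

/-- the grid is sparse -/
lemma grid_sparse (K : ℕ) {c : ℝ} (hc : 0 < c) : ∃ C : ℝ, ∀ X : ℕ, 1 ≤ X →
    (((Icc 1 X).filter (fun N => N ∈ grid K)).card : ℝ) ≤ C * (X : ℝ) ^ c := by
  obtain ⟨B, hB⟩ : ∃ B : ℝ, ∀ X : ℕ, 1 ≤ X → ((Nat.log 2 X + 1 : ℕ) : ℝ) ≤ B * (X : ℝ) ^ c := by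
    refine ⟨1 + 1 / (c * Real.log 2), fun X hX => ?_⟩
    have hX1 : (1 : ℝ) ≤ X := by exact_mod_cast hX
    have hX0 : (0 : ℝ) < X := by linarith
    have hl2 : 0 < Real.log 2 := Real.log_pos (by norm_num)
    have h1 : (1 : ℝ) ≤ (X : ℝ) ^ c := Real.one_le_rpow hX1 hc.le
    have h2 : ((Nat.log 2 X : ℕ) : ℝ) * Real.log 2 ≤ Real.log X := by
      have h3 : 2 ^ Nat.log 2 X ≤ X := Nat.pow_log_le_self 2 (by omega)
      have h4 : ((2 : ℝ) ^ Nat.log 2 X) ≤ X := by exact_mod_cast h3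
      have h5 := Real.log_le_log (by positivity) h4
      rwa [Real.log_pow] at h5
    have h6 : c * Real.log X ≤ (X : ℝ) ^ c := by
      have h7 := Real.log_le_sub_one_of_pos (Real.rpow_pos_of_pos hX0 c)
      rw [Real.log_rpow hX0] at h7
      linarith
    have h8 : ((Nat.log 2 X : ℕ) : ℝ) ≤ 1 / (c * Real.log 2) * (X : ℝ) ^ c := by
      rw [div_mul_eq_mul_div, one_mul, le_div_iff₀ (by positivity)]
      calc ((Nat.log 2 X : ℕ) : ℝ) * (c * Real.log 2) = c * (((Nat.log 2 X : ℕ) : ℝ) * Real.log 2) := by ring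
        _ ≤ c * Real.log X := mul_le_mul_of_nonneg_left h2 hc.le
        _ ≤ _ := h6
    push_cast
    linarith
  refine ⟨(2 * K + 2) * B, fun X hX => ?_⟩
  have hsub : (Icc 1 X).filter (fun N => N ∈ grid K) ⊆
      ((range (2 * K + 2)) ×ˢ (range (Nat.log 2 X + 1))).image (fun p => p.1 * 2 ^ p.2) := by
    intro N hN
    rw [mem_filter, mem_Icc] at hN
    obtain ⟨⟨h1, h2⟩, a, j, h3, h4⟩ := hN
    rw [mem_image]
    refine ⟨(a, j), ?_, h4.symm⟩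
    rw [mem_product, mem_range, mem_range]
    refine ⟨by simp only; omega, ?_⟩
    have ha : 1 ≤ a := by
      rcases Nat.eq_zero_or_pos a with h | h
      · rw [h, zero_mul] at h4
        omega
      · exact h
    have h5 : 2 ^ j ≤ X := by
      calc 2 ^ j = 1 * 2 ^ j := (one_mul _).symm
        _ ≤ a * 2 ^ j := Nat.mul_le_mul_right _ ha
        _ ≤ X := by rw [← h4]; exact h2
    have h6 : j ≤ Nat.log 2 X := Nat.le_log_of_pow_le (by norm_num) h5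
    simp only
    omega
  calc (((Icc 1 X).filter (fun N => N ∈ grid K)).card : ℝ)
      ≤ ((((range (2 * K + 2)) ×ˢ (range (Nat.log 2 X + 1))).image (fun p => p.1 * 2 ^ p.2)).card : ℝ) :=
        Nat.cast_le.2 (card_le_card hsub)
    _ ≤ (((range (2 * K + 2)) ×ˢ (range (Nat.log 2 X + 1))).card : ℝ) := Nat.cast_le.2 card_image_le
    _ = (2 * K + 2) * ((Nat.log 2 X + 1 : ℕ) : ℝ) := by
        rw [card_product, card_range, card_range]
        push_cast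
        ring
    _ ≤ (2 * K + 2) * (B * (X : ℝ) ^ c) := mul_le_mul_of_nonneg_left (hB X hX) (by positivity)
    _ = (2 * K + 2) * B * (X : ℝ) ^ c := by ring

end Pool.Agent.J4.H74.SH
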